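import Pool.Agent.H39.ET

set_option autoImplicit false

namespace Pool.Agent.Results.MP_26a47b_lc.Jnon
open Set Cardinal Filter Topology Pool.Agent.H39.ET

section Defs
variable {X : Type} [TopologicalSpace X]

/-- Families of open sets with dense union. -/
def IsD (𝒰 : Set (Set X)) : Prop := (∀ U ∈ 𝒰, IsOpen U) ∧ Dense (⋃₀ 𝒰)

/-- Members of `D` whose closures cover the space. -/
def IsK (𝒰 : Set (Set X)) : Prop := IsD 𝒰 ∧ ∀ x, ∃ U ∈ 𝒰, x ∈ closure U

/-- The first `n` moves of TWO, newest first. -/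
def hist (U : ℕ → Set X) : ℕ → List (Set X)
  | 0 => []
  | n + 1 => U n :: hist U n

/-- A strategy of ONE (a function of TWO's earlier moves) is winning in `G_1(K, D)`: it answers
every legal position with a member of `K`, and no legal play of TWO has dense union. -/
def Wins (σ : List (Set X) → Set (Set X)) : Prop :=
  ∀ U : ℕ → Set X, (∀ n, (∀ m < n, U m ∈ σ (hist U m)) → IsK (σ (hist U n))) ∧
    ((∀ n, U n ∈ σ (hist U n)) → ¬ Dense (⋃ n, U n))

def Cellular (𝒱 : Set (Set X)) : Prop :=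
  (∀ V ∈ 𝒱, IsOpen V ∧ V.Nonempty) ∧ 𝒱.PairwiseDisjoint id

end Defs

/-- Cellularity: the supremum of the sizes of cellular families. -/
noncomputable def cell (X : Type) [TopologicalSpace X] : Cardinal.{0} :=
  ⨆ 𝒱 : {𝒱 : Set (Set X) // Cellular 𝒱}, #𝒱.1

def SMZ (Y : Set ℝ) : Prop :=
  ∀ ε : ℕ → ℝ, (∀ n, 0 < ε n) → ∃ a : ℕ → ℝ, Y ⊆ ⋃ n, Icc (a n) (a n + ε n)

noncomputable def nonSMZ : Cardinal.{0} := sInf {c | ∃ Y : Set ℝ, ¬ SMZ Y ∧ #Y = c}

/-- The cardinal `j`, with cellularity as a supremum. -/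
noncomputable def jSup : Cardinal.{0} :=
  sInf {κ | ∀ (X : Type) [TopologicalSpace X] [T35Space X], κ ≤ cell X →
    ∃ σ : List (Set X) → Set (Set X), Wins σ}

/-- The cardinal `j`, with cellularity at least `κ` read as: some cellular family has size `≥ κ`. -/
noncomputable def jAtt : Cardinal.{0} :=
  sInf {κ | ∀ (X : Type) [TopologicalSpace X] [T35Space X],
    (∃ 𝒱 : Set (Set X), Cellular 𝒱 ∧ κ ≤ #𝒱) → ∃ σ : List (Set X) → Set (Set X), Wins σ}

theorem not_smz_univ : ¬ SMZ Set.univ := fun h => by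
  obtain ⟨a, ha⟩ := h (fun n => (1 / 2) ^ n) fun n => by positivity
  have h1 := (MeasureTheory.measure_mono (μ := MeasureTheory.volume) ha).trans
    (MeasureTheory.measure_iUnion_le _)
  simp only [Real.volume_univ, Real.volume_Icc, add_sub_cancel_left] at h1
  rw [← ENNReal.ofReal_tsum_of_nonneg (fun n => by positivity) summable_geometric_two] at h1
  exact absurd h1 (by simp)

theorem non_mem : ∃ Y : Set ℝ, ¬ SMZ Y ∧ #Y = nonSMZ :=
  csInf_mem (s := {c | ∃ Y : Set ℝ, ¬ SMZ Y ∧ #Y = c}) ⟨_, _, not_smz_univ, rfl⟩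

theorem smz_of_lt {Y : Set ℝ} (h : #Y < nonSMZ) : SMZ Y := by
  by_contra hc
  exact absurd (csInf_le' (show #Y ∈ {c | ∃ Y : Set ℝ, ¬ SMZ Y ∧ #Y = c} from ⟨Y, hc, rfl⟩))
    h.not_ge

theorem aleph0_lt : ℵ₀ < nonSMZ := by
  obtain ⟨Y, h1, h2⟩ := non_mem
  by_contra hc
  have h3 : Y.Countable := le_aleph0_iff_set_countable.1 (h2 ▸ not_lt.1 hc)
  obtain ⟨f, hf⟩ := countable_iff_exists_subset_range.1 h3
  refine h1 fun ε hε => ⟨f, fun y hy => ?_⟩
  obtain ⟨n, rfl⟩ := hf hy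
  exact mem_iUnion.2 ⟨n, le_rfl, by linarith [hε n]⟩

theorem exists_bdd {Y : Set ℝ} (h : ¬ SMZ Y) : ∃ k : ℕ, ¬ SMZ (Y ∩ Icc (-(k : ℝ)) k) := by
  by_contra hc
  push Not at hc
  refine h fun ε hε => ?_
  choose a ha using fun k => hc k (fun n => ε (Nat.pair k n)) fun n => hε _
  refine ⟨fun m => a m.unpair.1 m.unpair.2, fun y hy => ?_⟩
  obtain ⟨k, hk⟩ := exists_nat_ge |y|
  obtain ⟨n, hn⟩ := mem_iUnion.1 (ha k ⟨hy, abs_le.1 hk⟩)
  exact mem_iUnion.2 ⟨Nat.pair k n, by simpa using hn⟩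

theorem upper {X : Type} [TopologicalSpace X] (h : Cel (Set.univ : Set X) nonSMZ) :
    ∃ σ : List (Set X) → Set (Set X), Wins σ := by
  obtain ⟨Y0, h1, h2⟩ := non_mem
  obtain ⟨k, hk⟩ := exists_bdd h1
  set Y := Y0 ∩ Icc (-(k : ℝ)) k
  obtain ⟨V, hV, hV'⟩ := fam_of_cel (ι := Y) (h.mono subset_rfl
    (h2 ▸ mk_le_mk_of_subset inter_subset_left))
  unfold SMZ at hk
  push Not at hk
  obtain ⟨ε, hε, hk⟩ := hk
  let W : Set X := (closure (⋃ y, V y))ᶜ
  let G : ℕ → ℝ → Set X := fun n a => ⋃ y : Y, ⋃ _ : y.1 ∈ Icc a (a + ε n), V y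
  have hcov : ∀ n x, ∃ a, x ∈ closure (W ∪ G n a) := fun n x => by
    by_cases hx : x ∈ W
    · exact ⟨0, subset_closure (Or.inl hx)⟩
    obtain ⟨t, ht⟩ := (isCompact_Icc (a := -(k : ℝ)) (b := k)).elim_finite_subcover
      (fun a => Ioo a (a + ε n)) (fun _ => isOpen_Ioo) fun y _ =>
        mem_iUnion.2 ⟨y - ε n / 2, by linarith [hε n], by linarith [hε n]⟩
    have h3 : (⋃ y, V y) ⊆ ⋃ a ∈ t, G n a := iUnion_subset fun y z hz => by
      obtain ⟨a, h4, h5⟩ := mem_iUnion₂.1 (ht y.2.2)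
      exact mem_biUnion h4 (mem_iUnion₂.2 ⟨y, Ioo_subset_Icc_self h5, hz⟩)
    have h4 := closure_mono h3 (not_not.1 hx)
    rw [t.closure_biUnion] at h4
    obtain ⟨a, _, h5⟩ := mem_iUnion₂.1 h4
    exact ⟨a, closure_mono subset_union_right h5⟩
  have hl : ∀ (U : ℕ → Set X) n, (hist U n).length = n := fun U n => by
    induction n with
    | zero => rfl
    | succ n ih => simp [hist, ih]
  refine ⟨fun l => range fun a => W ∪ G l.length a, fun U => ⟨fun n _ => ⟨⟨?_, fun x => ?_⟩,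
    fun x => ?_⟩, fun hU hd => ?_⟩⟩
  · rintro _ ⟨a, rfl⟩
    exact isClosed_closure.isOpen_compl.union
      (isOpen_iUnion fun y => isOpen_iUnion fun _ => (hV y).1)
  · obtain ⟨a, ha⟩ := hcov (hist U n).length x
    exact closure_mono (subset_sUnion_of_mem (mem_range_self a)) ha
  · obtain ⟨a, ha⟩ := hcov (hist U n).length x
    exact ⟨_, mem_range_self a, ha⟩
  · choose a ha using hU
    refine hk a fun y hy => ?_
    obtain ⟨z, h3, h4⟩ := hd.inter_open_nonempty _ (hV ⟨y, hy⟩).1 (hV _).2.1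
    obtain ⟨n, hn⟩ := mem_iUnion.1 h4
    rw [← ha n, hl] at hn
    rcases hn with hn | hn
    · exact absurd (subset_closure (mem_iUnion.2 ⟨_, h3⟩)) hn
    · obtain ⟨y', h5, h6⟩ := mem_iUnion₂.1 hn
      by_cases e : (⟨y, hy⟩ : Y) = y'
      · subst e; exact mem_iUnion.2 ⟨n, h5⟩
      · exact absurd h6 ((hV' _ _ e).notMem_of_mem_left h3)

theorem sel {T β : Type} [Nonempty T] (hT : #T < nonSMZ) (ρ : ℕ → T → β)
    (hρ : ∀ n, (range (ρ n)).Finite) : ∃ τ : ℕ → T, ∀ t, ∃ n, ρ n t = ρ n (τ n) := by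
  choose e he using fun n => countable_iff_exists_injOn.1 (hρ n).countable
  obtain ⟨f, -, hf, hf'⟩ := (isClosed_univ (X := ℝ)).exists_nat_bool_injection_of_not_countable
    Cardinal.not_countable_real
  let h : (ℕ → ℕ) → ℝ := fun x => f fun m => decide (x m.unpair.1 = m.unpair.2)
  have hc : Continuous h := hf.comp (continuous_pi fun m =>
    (continuous_of_discreteTopology (f := fun v : ℕ => decide (v = m.unpair.2))).comp
      (continuous_apply _))
  have hi : Function.Injective h := fun x y hxy => funext fun n => by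
    have := congrFun (hf' hxy) (Nat.pair n (y n))
    simpa using this
  let K : Set (ℕ → ℕ) := Set.univ.pi fun n => e n '' range (ρ n)
  have hK : IsCompact K := isCompact_univ_pi fun n => ((hρ n).image _).isCompact
  have : ∀ n, ∃ δ, 0 < δ ∧ ∀ p ∈ (K ×ˢ K) ∩ {p | p.1 n ≠ p.2 n}, δ ≤ dist (h p.1) (h p.2) := fun n =>
    ((hK.prod hK).inter_right ((isClosed_discrete {q : ℕ × ℕ | q.1 ≠ q.2}).preimage
      (f := fun p : (ℕ → ℕ) × (ℕ → ℕ) => (p.1 n, p.2 n)) (by fun_prop))).exists_forall_le'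
      (by fun_prop) fun p hp => dist_pos.2 fun e => hp.2 (congrFun (hi e) n)
  choose δ hδ hδ' using this
  let r : T → ℕ → ℕ := fun t n => e n (ρ n t)
  have hr : ∀ t, r t ∈ K := fun t n _ => ⟨_, mem_range_self t, rfl⟩
  obtain ⟨a, ha⟩ := smz_of_lt (Y := range (h ∘ r)) (mk_range_le.trans_lt hT) (fun n => δ n / 2)
    fun n => half_pos (hδ n)
  have : ∀ n, ∃ s : T, ∀ t, h (r t) ∈ Icc (a n) (a n + δ n / 2) → ρ n t = ρ n s := fun n => by
    by_cases hx : ∃ s, h (r s) ∈ Icc (a n) (a n + δ n / 2)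
    · obtain ⟨s, hs⟩ := hx
      refine ⟨s, fun t ht => he n (mem_range_self t) (mem_range_self s) ?_⟩
      by_contra hne
      have h1 := hδ' n (r t, r s) ⟨⟨hr t, hr s⟩, hne⟩
      have h2 := Real.dist_le_of_mem_Icc ht hs
      linarith [hδ n]
    · exact ⟨Classical.arbitrary T, fun t ht => absurd ⟨t, ht⟩ hx⟩
  choose τ hτ using this
  refine ⟨τ, fun t => ?_⟩
  obtain ⟨n, hn⟩ := mem_iUnion.1 (ha (mem_range_self t))
  exact ⟨n, hτ n t hn⟩

theorem fin_cover {T : Type} {𝒰 : Set (Set (Ultrafilter T))} (h : IsK 𝒰) :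
    ∃ c : T → Set (Ultrafilter T), (range c).Finite ∧ ∀ t, c t ∈ 𝒰 ∧ pure t ∈ c t := by
  obtain ⟨s, hs⟩ := (isCompact_univ (X := Ultrafilter T)).elim_finite_subcover
    (fun U : 𝒰 => {y : Ultrafilter T | {t | pure t ∈ U.1} ∈ y})
    (fun U => ultrafilter_isOpen_basic _) fun x _ => by
      obtain ⟨U, h1, h2⟩ := h.2 x
      refine mem_iUnion.2 ⟨⟨U, h1⟩, ?_⟩
      by_contra hc
      have h3 : {t | pure t ∈ U}ᶜ ∈ x := Ultrafilter.compl_mem_iff_notMem.2 hc
      obtain ⟨t, h4, h5⟩ := denseRange_pure.exists_mem_open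
        ((ultrafilter_isOpen_basic _).inter (h.1.1 U h1))
        (mem_closure_iff.1 h2 _ (ultrafilter_isOpen_basic _) h3)
      exact (Ultrafilter.mem_pure.1 h4) h5
  choose U h1 h2 using fun t => mem_iUnion₂.1 (hs (mem_univ (pure t)))
  refine ⟨fun t => (U t).1, (s.finite_toSet.image Subtype.val).subset ?_,
    fun t => ⟨(U t).2, Ultrafilter.mem_pure.1 (h2 t)⟩⟩
  rintro _ ⟨t, rfl⟩
  exact ⟨U t, h1 t, rfl⟩

theorem lower {T : Type} [Nonempty T] (hT : #T < nonSMZ)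
    (σ : List (Set (Ultrafilter T)) → Set (Set (Ultrafilter T))) : ¬ Wins σ := fun hw => by
  have : ∀ l, ∃ c : T → Set (Ultrafilter T), (range c).Finite ∧
      (IsK (σ l) → ∀ t, c t ∈ σ l ∧ pure t ∈ c t) := fun l => by
    by_cases h : IsK (σ l)
    · obtain ⟨c, h1, h2⟩ := fin_cover h
      exact ⟨c, h1, fun _ => h2⟩
    · exact ⟨fun _ => ∅, (finite_singleton ∅).subset (by rintro _ ⟨t, rfl⟩; rfl), fun h' => absurd h' h⟩
  choose c hc hc' using this
  obtain ⟨H, hH0, hH1⟩ : ∃ H : ℕ → Set (List (Set (Ultrafilter T))), H 0 = {[]} ∧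
      ∀ n, H (n + 1) = ⋃ l ∈ H n, (fun U => U :: l) '' range (c l) :=
    ⟨fun n => n.rec {[]} fun _ S => ⋃ l ∈ S, (fun U => U :: l) '' range (c l), rfl, fun _ => rfl⟩
  have hH : ∀ n, (H n).Finite := fun n => by
    induction n with
    | zero => rw [hH0]; exact finite_singleton _
    | succ n ih => rw [hH1]; exact ih.biUnion fun l _ => (hc l).image _
  classical
  obtain ⟨τ, hτ⟩ := sel hT (β := List (Set (Ultrafilter T)) → Set (Ultrafilter T))
      (fun n t l => @ite _ (l ∈ H n) (Classical.propDecidable _) (c l t) ∅) fun n => by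
    have := (hH n).to_subtype
    refine ((Finite.pi' fun l : H n => hc l.1).image
      fun g (l : List (Set (Ultrafilter T))) => if h : l ∈ H n then g ⟨l, h⟩ else ∅).subset ?_
    rintro _ ⟨t, rfl⟩
    refine ⟨fun l => c l.1 t, fun l => mem_range_self t, funext fun l => ?_⟩
    by_cases h : l ∈ H n <;> simp [h]
  let L : ℕ → List (Set (Ultrafilter T)) := fun n => n.rec [] fun n l => c l (τ n) :: l
  let U : ℕ → Set (Ultrafilter T) := fun n => c (L n) (τ n)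
  have hL : ∀ n, hist U n = L n := fun n => by
    induction n with
    | zero => rfl
    | succ n ih => rw [hist, ih]
  have hLH : ∀ n, L n ∈ H n := fun n => by
    induction n with
    | zero => rw [hH0]; rfl
    | succ n ih => rw [hH1]; exact mem_biUnion ih ⟨_, mem_range_self _, rfl⟩
  have hleg : ∀ n, U n ∈ σ (hist U n) := fun n => by
    induction n using Nat.strong_induction_on with
    | _ n ih =>
      have := (hw U).1 n ih
      rw [hL] at this ⊢
      exact (hc' _ this _).1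
  refine (hw U).2 hleg (denseRange_pure.mono ?_)
  rintro _ ⟨t, rfl⟩
  obtain ⟨n, hn⟩ := hτ t
  have h1 := congrFun hn (L n)
  simp only [if_pos (hLH n)] at h1
  have h2 := (hw U).1 n fun m _ => hleg m
  rw [hL] at h2
  exact mem_iUnion.2 ⟨n, show pure t ∈ c (L n) (τ n) from h1 ▸ (hc' _ h2 t).2⟩

theorem witness {κ : Cardinal.{0}} (h : κ < nonSMZ) : ∃ (X : Type) (_ : TopologicalSpace X)
    (_ : T35Space X), (∃ 𝒱 : Set (Set X), Cellular 𝒱 ∧ κ ≤ #𝒱) ∧
      ∀ σ : List (Set X) → Set (Set X), ¬ Wins σ := by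
  have h1 : #(Option κ.out) < nonSMZ := by
    rw [mk_option, mk_out]
    exact add_lt_of_lt aleph0_lt.le h (one_lt_aleph0.trans aleph0_lt)
  refine ⟨Ultrafilter (Option κ.out), inferInstance, inferInstance, ?_, lower h1⟩
  obtain ⟨𝒱, h2, h3, h4⟩ := cel_of_fam (U := Set.univ)
    (W := fun t : Option κ.out => {y : Ultrafilter (Option κ.out) | {t} ∈ y})
    (fun t => ⟨ultrafilter_isOpen_basic _, ⟨pure t, Ultrafilter.mem_pure.2 rfl⟩, subset_univ _⟩)
    fun s t hst => Set.disjoint_left.2 fun y h5 h6 => by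
      obtain ⟨u, h7, h8⟩ := Ultrafilter.nonempty_of_mem (inter_mem h5 h6)
      exact hst (h7.symm.trans h8)
  refine ⟨𝒱, ⟨fun V hV => ⟨(h2 V hV).1, (h2 V hV).2.1⟩, h3⟩, le_trans ?_ h4⟩
  rw [mk_option, mk_out]
  exact self_le_add_right _ _

theorem cel_of_lt {X : Type} [TopologicalSpace X] {μ : Cardinal.{0}} (h : μ < cell X) :
    Cel (Set.univ : Set X) (Order.succ μ) := by
  have : Nonempty {𝒱 : Set (Set X) // Cellular 𝒱} := ⟨⟨∅, by simp [Cellular]⟩⟩
  obtain ⟨𝒱, h1⟩ := (lt_ciSup_iff bddAbove_of_small).1 h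
  exact ⟨𝒱.1, fun V hV => ⟨(𝒱.2.1 V hV).1, (𝒱.2.1 V hV).2, subset_univ _⟩, 𝒱.2.2,
    Order.succ_le_of_lt h1⟩

theorem result : jAtt = nonSMZ ∧ nonSMZ ≤ jSup ∧ jSup ≤ Order.succ nonSMZ ∧
    (¬ (nonSMZ.IsRegular ∧ Order.IsSuccLimit nonSMZ) → jSup = nonSMZ) := by
  have h1 : nonSMZ ∈ {κ | ∀ (X : Type) [TopologicalSpace X] [T35Space X],
      (∃ 𝒱 : Set (Set X), Cellular 𝒱 ∧ κ ≤ #𝒱) → ∃ σ : List (Set X) → Set (Set X), Wins σ} :=
    fun X _ _ ⟨𝒱, h1, h2⟩ =>
      upper ⟨𝒱, fun V hV => ⟨(h1.1 V hV).1, (h1.1 V hV).2, subset_univ _⟩, h1.2, h2⟩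
  have h2 : Order.succ nonSMZ ∈ {κ | ∀ (X : Type) [TopologicalSpace X] [T35Space X], κ ≤ cell X →
      ∃ σ : List (Set X) → Set (Set X), Wins σ} := fun X _ _ h =>
    upper ((cel_of_lt (Order.succ_le_iff.1 h)).mono subset_rfl (Order.le_succ _))
  have h3 : nonSMZ ≤ jSup := le_csInf ⟨_, h2⟩ fun κ hκ => by
    by_contra hc
    obtain ⟨X, _, _, ⟨𝒱, h4, h5⟩, h6⟩ := witness (not_le.1 hc)
    obtain ⟨σ, hσ⟩ := hκ X (h5.trans (le_ciSup (f := fun 𝒱 : {𝒱 : Set (Set X) // Cellular 𝒱} => #𝒱.1)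
      bddAbove_of_small ⟨𝒱, h4⟩))
    exact h6 σ hσ
  refine ⟨le_antisymm (csInf_le' h1) (le_csInf ⟨_, h1⟩ fun κ hκ => ?_), h3, csInf_le' h2,
    fun h => le_antisymm (csInf_le' fun X _ _ hX => upper ?_) h3⟩
  · by_contra hc
    obtain ⟨X, _, _, h4, h6⟩ := witness (not_le.1 hc)
    obtain ⟨σ, hσ⟩ := hκ X h4
    exact h6 σ hσ
  · rcases isRegular_or_isSingular aleph0_lt.le with h4 | h4
    · have h5 : ¬ Order.IsSuccPrelimit nonSMZ := fun h5 =>
        h ⟨h4, not_isMin_of_lt aleph0_lt, h5⟩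
      obtain ⟨μ, hμ⟩ := Order.not_isSuccPrelimit_iff_mem_range_succ.1 h5
      rw [← hμ] at hX ⊢
      exact cel_of_lt (Order.succ_le_iff.1 hX)
    · exact et h4 fun μ hμ => (cel_of_lt (hμ.trans_le hX)).mono subset_rfl (Order.le_succ _)

end Pool.Agent.Results.MP_26a47b_lc.Jnon
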